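import Pool.Agent.Y57.AK.Stm

set_option autoImplicit false
set_option linter.all false

/-! # Project AK57: Hermite interpolation on a grid with small total degree -/

open Finset

namespace Pool.Agent.Y972.AK

open Pool.Agent.Y57.AK

section
variable {ι : Type} [Fintype ι] [DecidableEq ι]

theorem sh_X (p : ι → ℚ) (i : ι) :
    sh p (MvPolynomial.X i) = MvPolynomial.X i + MvPolynomial.C (p i) := by
  unfold sh
  rw [MvPolynomial.aeval_X]

theorem sh_C (p : ι → ℚ) (c : ℚ) : sh p (MvPolynomial.C c) = MvPolynomial.C c := by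
  unfold sh
  rw [MvPolynomial.aeval_C]
  rfl

theorem sh_add (p : ι → ℚ) (f g : MvPolynomial ι ℚ) : sh p (f + g) = sh p f + sh p g := by
  unfold sh; rw [map_add]

theorem sh_mul (p : ι → ℚ) (f g : MvPolynomial ι ℚ) : sh p (f * g) = sh p f * sh p g := by
  unfold sh; rw [map_mul]

theorem sh_sum {α : Type} (s : Finset α) (p : ι → ℚ) (F : α → MvPolynomial ι ℚ) :
    sh p (∑ i ∈ s, F i) = ∑ i ∈ s, sh p (F i) := by
  unfold sh; rw [map_sum]

theorem sh_prod {α : Type} (s : Finset α) (p : ι → ℚ) (F : α → MvPolynomial ι ℚ) :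
    sh p (∏ i ∈ s, F i) = ∏ i ∈ s, sh p (F i) := by
  unfold sh; rw [map_prod]

theorem sh_pow (p : ι → ℚ) (f : MvPolynomial ι ℚ) (n : ℕ) : sh p (f ^ n) = (sh p f) ^ n := by
  unfold sh; rw [map_pow]

theorem constCoeff_sh (p : ι → ℚ) (f : MvPolynomial ι ℚ) :
    MvPolynomial.constantCoeff (sh p f) = MvPolynomial.eval p f := by
  have h : (MvPolynomial.constantCoeff : MvPolynomial ι ℚ →+* ℚ).comp
      (MvPolynomial.aeval (fun i => MvPolynomial.X i + MvPolynomial.C (p i) :
        ι → MvPolynomial ι ℚ) : MvPolynomial ι ℚ →ₐ[ℚ] MvPolynomial ι ℚ).toRingHom =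
      MvPolynomial.eval p := by
    apply MvPolynomial.ringHom_ext
    · intro r
      simp
    · intro i
      simp
  exact congrArg (fun φ : MvPolynomial ι ℚ →+* ℚ => φ f) h

/-- the Lagrange basis polynomial of one coordinate -/
noncomputable def lb (S : Finset ℚ) (i : ι) (t : ℚ) : MvPolynomial ι ℚ :=
  ∏ t' ∈ S.erase t, ((MvPolynomial.X i - MvPolynomial.C t') * MvPolynomial.C (t - t')⁻¹)

theorem lb_deg (S : Finset ℚ) (i : ι) (t : ℚ) (ht : t ∈ S) :
    (lb S i t).totalDegree ≤ S.card - 1 := by
  unfold lb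
  refine (MvPolynomial.totalDegree_finset_prod _ _).trans ?_
  rw [← card_erase_of_mem ht, card_eq_sum_ones]
  refine sum_le_sum fun t' _ => ?_
  refine (MvPolynomial.totalDegree_mul _ _).trans ?_
  rw [MvPolynomial.totalDegree_C, add_zero]
  refine (MvPolynomial.totalDegree_sub _ _).trans ?_
  rw [MvPolynomial.totalDegree_C, MvPolynomial.totalDegree_X]
  exact max_le le_rfl (Nat.zero_le _)

theorem lb_self (S : Finset ℚ) (i : ι) (p : ι → ℚ) :
    MvPolynomial.eval p (lb S i (p i)) = 1 := by
  unfold lb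
  rw [map_prod]
  apply prod_eq_one
  intro t' ht'
  rw [map_mul, map_sub, MvPolynomial.eval_X, MvPolynomial.eval_C, MvPolynomial.eval_C]
  exact mul_inv_cancel₀ (sub_ne_zero.2 (mem_erase.1 ht').1.symm)

theorem lb_ne (S : Finset ℚ) (i : ι) (p : ι → ℚ) (t : ℚ) (hp : p i ∈ S) (h : p i ≠ t) :
    MvPolynomial.eval p (lb S i t) = 0 := by
  unfold lb
  rw [map_prod]
  apply prod_eq_zero (mem_erase.2 ⟨h, hp⟩)
  rw [map_mul, map_sub, MvPolynomial.eval_X, MvPolynomial.eval_C, sub_self, zero_mul]

/-- Lagrange interpolation on the grid -/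
theorem lagrange (S : ι → Finset ℚ) (q : ℕ) (hq : ∀ i, (S i).card ≤ q) (w : (ι → ℚ) → ℚ) :
    ∃ R : MvPolynomial ι ℚ, R.totalDegree ≤ (q - 1) * Fintype.card ι ∧
      ∀ p : ι → ℚ, (∀ i, p i ∈ S i) → MvPolynomial.eval p R = w p := by
  refine ⟨∑ p ∈ Fintype.piFinset S, MvPolynomial.C (w p) * ∏ i, lb (S i) i (p i), ?_, ?_⟩
  · refine MvPolynomial.totalDegree_finsetSum_le fun p hp => ?_
    rw [Fintype.mem_piFinset] at hp
    refine (MvPolynomial.totalDegree_mul _ _).trans ?_
    rw [MvPolynomial.totalDegree_C, zero_add]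
    refine (MvPolynomial.totalDegree_finset_prod _ _).trans ?_
    calc ∑ i, (lb (S i) i (p i)).totalDegree ≤ ∑ _i : ι, (q - 1) :=
          sum_le_sum fun i _ => (lb_deg (S i) i (p i) (hp i)).trans (Nat.sub_le_sub_right (hq i) 1)
      _ = (q - 1) * Fintype.card ι := by
          rw [sum_const, card_univ, smul_eq_mul, mul_comm]
  · intro p hp
    rw [map_sum, Finset.sum_eq_single p]
    · rw [map_mul, MvPolynomial.eval_C, map_prod, prod_eq_one, mul_one]
      intro i _
      exact lb_self (S i) i p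
    · intro p' _ hne
      obtain ⟨i, hi⟩ := Function.ne_iff.1 hne
      rw [map_mul, map_prod, prod_eq_zero (mem_univ i), mul_zero]
      exact lb_ne (S i) i p (p' i) (hp i) (Ne.symm hi)
    · intro h
      exact absurd (Fintype.mem_piFinset.2 hp) h

/-- the polynomial which vanishes on the grid -/
noncomputable def om (S : Finset ℚ) (i : ι) : MvPolynomial ι ℚ :=
  ∏ t ∈ S, (MvPolynomial.X i - MvPolynomial.C t)

theorem om_deg (S : Finset ℚ) (i : ι) : (om S i).totalDegree ≤ S.card := by
  unfold om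
  refine (MvPolynomial.totalDegree_finset_prod _ _).trans ?_
  rw [card_eq_sum_ones]
  refine sum_le_sum fun t' _ => ?_
  refine (MvPolynomial.totalDegree_sub _ _).trans ?_
  rw [MvPolynomial.totalDegree_C, MvPolynomial.totalDegree_X]
  exact max_le le_rfl (Nat.zero_le _)

/-- the cofactor -/
noncomputable def th (S : Finset ℚ) (i : ι) (p : ι → ℚ) : MvPolynomial ι ℚ :=
  ∏ t ∈ S.erase (p i), (MvPolynomial.X i + MvPolynomial.C (p i - t))

theorem sh_om (S : Finset ℚ) (i : ι) (p : ι → ℚ) (hp : p i ∈ S) :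
    sh p (om S i) = MvPolynomial.X i * th S i p := by
  unfold om th
  rw [sh_prod, ← mul_prod_erase S _ hp]
  have h : ∀ t, sh p (MvPolynomial.X i - MvPolynomial.C t) =
      MvPolynomial.X i + MvPolynomial.C (p i - t) := by
    intro t
    have : (MvPolynomial.X i - MvPolynomial.C t : MvPolynomial ι ℚ) =
        MvPolynomial.X i + MvPolynomial.C (-t) := by
      rw [MvPolynomial.C_neg, sub_eq_add_neg]
    rw [this, sh_add, sh_X, sh_C, add_assoc, ← MvPolynomial.C_add, ← sub_eq_add_neg]
  rw [h, sub_self, MvPolynomial.C_0, add_zero]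
  congr 1
  exact prod_congr rfl fun t _ => h t

theorem th_const (S : Finset ℚ) (i : ι) (p : ι → ℚ) :
    MvPolynomial.constantCoeff (th S i p) ≠ 0 := by
  unfold th
  rw [map_prod, Finset.prod_ne_zero_iff]
  intro t ht
  rw [map_add, MvPolynomial.constantCoeff_X, MvPolynomial.constantCoeff_C, zero_add]
  exact sub_ne_zero.2 (mem_erase.1 ht).1.symm

theorem prod_X_pow (a : ι →₀ ℕ) :
    ∏ i, (MvPolynomial.X i : MvPolynomial ι ℚ) ^ a i = MvPolynomial.monomial a 1 := by
  rw [MvPolynomial.monomial_eq, MvPolynomial.C_1, one_mul, Finsupp.prod_fintype]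
  intro i
  exact pow_zero _

theorem degree_sum' (γ : ι →₀ ℕ) : ∑ i, γ i = γ.degree := by
  rw [Finsupp.degree_apply]
  symm
  apply Finset.sum_subset (Finset.subset_univ _)
  intro i _ hi
  exact Finsupp.notMem_support_iff.1 hi

theorem key (S : ι → Finset ℚ) (a β : ι →₀ ℕ) (R : MvPolynomial ι ℚ) (p : ι → ℚ)
    (hp : ∀ i, p i ∈ S i) (hβ : β.degree ≤ a.degree) :
    (sh p ((∏ i, om (S i) i ^ a i) * R)).coeff β = if a = β then
      (∏ i, MvPolynomial.constantCoeff (th (S i) i p) ^ a i) * MvPolynomial.eval p R else 0 := by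
  have h1 : sh p ((∏ i, om (S i) i ^ a i) * R) = MvPolynomial.monomial a 1 *
      ((∏ i, th (S i) i p ^ a i) * sh p R) := by
    rw [sh_mul, sh_prod, ← prod_X_pow, ← mul_assoc, ← prod_mul_distrib]
    congr 1
    refine prod_congr rfl fun i _ => ?_
    rw [sh_pow, sh_om _ _ _ (hp i), mul_pow]
  rw [h1, MvPolynomial.coeff_monomial_mul']
  by_cases h : a = β
  · subst h
    rw [if_pos le_rfl, if_pos rfl, one_mul, tsub_self]
    change MvPolynomial.constantCoeff _ = _
    rw [map_mul, map_prod, constCoeff_sh]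
    congr 1
    exact prod_congr rfl fun i _ => map_pow _ _ _
  · rw [if_neg h, if_neg]
    intro hle
    apply h
    have h2 : ∀ i, a i ≤ β i := fun i => hle i
    have h3 : ∑ i, β i ≤ ∑ i, a i := by
      rw [degree_sum', degree_sum']
      exact hβ
    ext i
    by_contra hne
    have h4 : a i < β i := lt_of_le_of_ne (h2 i) hne
    have h5 : ∑ i, a i < ∑ i, β i := sum_lt_sum (fun i _ => h2 i) ⟨i, mem_univ i, h4⟩
    omega

end

/-- INT -/
theorem t_INT : S_INT := by
  classical
  intro ι _ _ S q b hq u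
  have main : ∀ h : ℕ, ∃ f : MvPolynomial ι ℚ,
      f.totalDegree ≤ (q - 1) * Fintype.card ι + q * (h - 1) ∧
      ∀ p : ι → ℚ, (∀ i, p i ∈ S i) → ∀ β : ι →₀ ℕ, β.degree < h →
        (sh p f).coeff β = u p β := by
    intro h
    induction h with
    | zero =>
      exact ⟨0, by simp, fun p _ β hβ => absurd hβ (Nat.not_lt_zero _)⟩
    | succ h ih =>
      obtain ⟨f, hf, hfu⟩ := ih
      have hR : ∀ a : ι →₀ ℕ, ∃ R : MvPolynomial ι ℚ,
          R.totalDegree ≤ (q - 1) * Fintype.card ι ∧
          ∀ p : ι → ℚ, (∀ i, p i ∈ S i) → MvPolynomial.eval p R =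
            (u p a - (sh p f).coeff a) /
              ∏ i, MvPolynomial.constantCoeff (th (S i) i p) ^ a i := fun a =>
        lagrange S q hq _
      choose R hR1 hR2 using hR
      have hA : ∀ a : ι →₀ ℕ, a ∈ (univ : Finset ι).finsuppAntidiag h ↔ a.degree = h := by
        intro a
        rw [mem_finsuppAntidiag, ← degree_sum']
        constructor
        · exact fun h => h.1
        · exact fun h => ⟨h, subset_univ _⟩
      refine ⟨f + ∑ a ∈ (univ : Finset ι).finsuppAntidiag h, (∏ i, om (S i) i ^ a i) * R a, ?_, ?_⟩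
      · refine (MvPolynomial.totalDegree_add _ _).trans (max_le ?_ ?_)
        · refine hf.trans ?_
          rw [Nat.add_sub_cancel]
          exact Nat.add_le_add_left (Nat.mul_le_mul_left _ (Nat.sub_le _ _)) _
        · refine MvPolynomial.totalDegree_finsetSum_le fun a ha => ?_
          rw [hA] at ha
          refine (MvPolynomial.totalDegree_mul _ _).trans ?_
          rw [Nat.add_sub_cancel, add_comm]
          refine Nat.add_le_add (hR1 a) ?_
          refine (MvPolynomial.totalDegree_finset_prod _ _).trans ?_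
          calc ∑ i, (om (S i) i ^ a i).totalDegree ≤ ∑ i, a i * q := by
                refine sum_le_sum fun i _ => ?_
                refine (MvPolynomial.totalDegree_pow _ _).trans ?_
                exact Nat.mul_le_mul_left _ ((om_deg (S i) i).trans (hq i))
            _ = q * h := by
                rw [← sum_mul, degree_sum', ha, mul_comm]
      · intro p hp β hβ
        rw [sh_add, sh_sum, MvPolynomial.coeff_add, MvPolynomial.coeff_sum]
        have h1 : ∀ a ∈ (univ : Finset ι).finsuppAntidiag h,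
            (sh p ((∏ i, om (S i) i ^ a i) * R a)).coeff β = if a = β then
              u p β - (sh p f).coeff β else 0 := by
          intro a ha
          rw [hA] at ha
          rw [key S a β (R a) p hp (by omega)]
          by_cases hab : a = β
          · rw [if_pos hab, if_pos hab, hR2 a p hp, hab]
            have h2 : ∏ i, MvPolynomial.constantCoeff (th (S i) i p) ^ β i ≠ 0 :=
              Finset.prod_ne_zero_iff.2 fun i _ => pow_ne_zero _ (th_const _ _ _)
            rw [mul_div_cancel₀ _ h2]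
          · rw [if_neg hab, if_neg hab]
        rw [sum_congr rfl h1, Finset.sum_ite_eq' ]
        by_cases hβh : β.degree = h
        · rw [if_pos ((hA β).2 hβh)]
          ring
        · rw [if_neg (fun h2 => hβh ((hA β).1 h2)), add_zero]
          exact hfu p hp β (by omega)
  exact main b

end Pool.Agent.Y972.AK
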