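import Pool.Agent.Y57.AK.Stm

set_option autoImplicit false
set_option linter.all false

/-! # Project AK57: polynomials vanishing at points of a line to high order -/

open Finset

namespace Pool.Agent.Y972.AK

open Pool.Agent.Y57.AK

section
variable {ι : Type} [Fintype ι] [DecidableEq ι]

/-- weight at most `m` -/
def W (m : ℕ) (P : MvPolynomial ι (Polynomial ℚ)) : Prop :=
  ∀ (β : ι →₀ ℕ) (n : ℕ), (P.coeff β).coeff n ≠ 0 → n + β.degree ≤ m

/-- order at least `a` at `s₀` -/
def O (s₀ : ℚ) (a : ℕ) (P : MvPolynomial ι (Polynomial ℚ)) : Prop :=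
  ∀ β : ι →₀ ℕ, (Polynomial.X - Polynomial.C s₀) ^ (a - β.degree) ∣ P.coeff β

theorem W_mono {m m' : ℕ} (h : m ≤ m') {P : MvPolynomial ι (Polynomial ℚ)} (hP : W m P) :
    W m' P := fun β n hn => (hP β n hn).trans h

theorem W_sum {α : Type} {s : Finset α} {F : α → MvPolynomial ι (Polynomial ℚ)} {m : ℕ}
    (h : ∀ i ∈ s, W m (F i)) : W m (∑ i ∈ s, F i) := by
  intro β n hn
  rw [MvPolynomial.coeff_sum, Polynomial.finset_sum_coeff] at hn
  obtain ⟨i, hi, h1⟩ := Finset.exists_ne_zero_of_sum_ne_zero hn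
  exact h i hi β n h1

theorem W_mul {a b : ℕ} {P Q : MvPolynomial ι (Polynomial ℚ)} (hP : W a P) (hQ : W b Q) :
    W (a + b) (P * Q) := by
  intro β n hn
  rw [MvPolynomial.coeff_mul, Polynomial.finset_sum_coeff] at hn
  obtain ⟨⟨β1, β2⟩, hi, h1⟩ := Finset.exists_ne_zero_of_sum_ne_zero hn
  rw [Polynomial.coeff_mul] at h1
  obtain ⟨⟨n1, n2⟩, hj, h2⟩ := Finset.exists_ne_zero_of_sum_ne_zero h1
  rw [Finset.HasAntidiagonal.mem_antidiagonal] at hi hj
  have h3 := hP β1 n1 (left_ne_zero_of_mul h2)
  have h4 := hQ β2 n2 (right_ne_zero_of_mul h2)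
  have h5 : β.degree = β1.degree + β2.degree := by
    rw [← hi, map_add]
  simp only at hj
  omega

theorem W_const (c : Polynomial ℚ) (hc : c.natDegree = 0) : W 0 (MvPolynomial.C c : MvPolynomial ι (Polynomial ℚ)) := by
  intro β n hn
  rw [MvPolynomial.coeff_C] at hn
  split_ifs at hn with h
  · subst h
    have : n ≤ c.natDegree := Polynomial.le_natDegree_of_ne_zero hn
    simp only [map_zero]
    omega
  · simp at hn

theorem W_one : W 0 (1 : MvPolynomial ι (Polynomial ℚ)) := by
  have := W_const (ι := ι) (1 : Polynomial ℚ) (by simp)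
  rwa [MvPolynomial.C_1] at this

theorem W_pow {P : MvPolynomial ι (Polynomial ℚ)} (hP : W 1 P) (n : ℕ) : W n (P ^ n) := by
  induction n with
  | zero => rw [pow_zero]; exact W_one
  | succ n ih => rw [pow_succ]; exact W_mul ih hP

theorem W_prod {P : ι → MvPolynomial ι (Polynomial ℚ)} (hP : ∀ i, W 1 (P i)) (γ : ι → ℕ)
    (s : Finset ι) : W (∑ i ∈ s, γ i) (∏ i ∈ s, P i ^ γ i) := by
  induction s using Finset.induction_on with
  | empty => rw [sum_empty, prod_empty]; exact W_one
  | insert i s hi ih =>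
    rw [sum_insert hi, prod_insert hi]
    exact W_mul (W_pow (hP i) _) ih

theorem W_lin (i : ι) (c : Polynomial ℚ) (hc : c.natDegree ≤ 1) :
    W 1 (MvPolynomial.X i + MvPolynomial.C c : MvPolynomial ι (Polynomial ℚ)) := by
  intro β n hn
  rw [MvPolynomial.coeff_add, Polynomial.coeff_add, MvPolynomial.coeff_X', MvPolynomial.coeff_C] at hn
  by_cases h1 : Finsupp.single i 1 = β
  · subst h1
    have h2 : (0 : ι →₀ ℕ) ≠ Finsupp.single i 1 := by
      intro h
      have := congrArg (fun g : ι →₀ ℕ => g i) h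
      simp at this
    rw [if_pos rfl, if_neg h2, Polynomial.coeff_zero, add_zero, Polynomial.coeff_one] at hn
    have h3 : n = 0 := by
      by_contra h4
      exact hn (if_neg h4)
    rw [h3, Finsupp.degree_single]
  · rw [if_neg h1, Polynomial.coeff_zero, zero_add] at hn
    by_cases h2 : (0 : ι →₀ ℕ) = β
    · subst h2
      rw [if_pos rfl] at hn
      have := Polynomial.le_natDegree_of_ne_zero hn
      simp only [map_zero]
      omega
    · rw [if_neg h2] at hn
      simp at hn

theorem O_mono {s₀ : ℚ} {a a' : ℕ} (h : a' ≤ a) {P : MvPolynomial ι (Polynomial ℚ)}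
    (hP : O s₀ a P) : O s₀ a' P := fun β =>
  (pow_dvd_pow _ (Nat.sub_le_sub_right h _)).trans (hP β)

theorem O_sum {α : Type} {s : Finset α} {F : α → MvPolynomial ι (Polynomial ℚ)} {s₀ : ℚ} {a : ℕ}
    (h : ∀ i ∈ s, O s₀ a (F i)) : O s₀ a (∑ i ∈ s, F i) := by
  intro β
  rw [MvPolynomial.coeff_sum]
  exact Finset.dvd_sum fun i hi => h i hi β

theorem O_mul {s₀ : ℚ} {a b : ℕ} {P Q : MvPolynomial ι (Polynomial ℚ)} (hP : O s₀ a P)
    (hQ : O s₀ b Q) : O s₀ (a + b) (P * Q) := by
  intro β
  rw [MvPolynomial.coeff_mul]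
  refine Finset.dvd_sum fun p hp => ?_
  rw [Finset.HasAntidiagonal.mem_antidiagonal] at hp
  have h5 : β.degree = p.1.degree + p.2.degree := by
    rw [← hp, map_add]
  have h6 := mul_dvd_mul (hP p.1) (hQ p.2)
  rw [← pow_add] at h6
  exact (pow_dvd_pow _ (by omega)).trans h6

theorem O_zero {s₀ : ℚ} (P : MvPolynomial ι (Polynomial ℚ)) : O s₀ 0 P := by
  intro β
  rw [Nat.zero_sub, pow_zero]
  exact one_dvd _

theorem O_pow {s₀ : ℚ} {P : MvPolynomial ι (Polynomial ℚ)} (hP : O s₀ 1 P) (n : ℕ) :
    O s₀ n (P ^ n) := by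
  induction n with
  | zero => exact O_zero _
  | succ n ih => rw [pow_succ]; exact O_mul ih hP

theorem O_prod {s₀ : ℚ} {P : ι → MvPolynomial ι (Polynomial ℚ)} (hP : ∀ i, O s₀ 1 (P i))
    (γ : ι → ℕ) (s : Finset ι) : O s₀ (∑ i ∈ s, γ i) (∏ i ∈ s, P i ^ γ i) := by
  induction s using Finset.induction_on with
  | empty => rw [sum_empty]; exact O_zero _
  | insert i s hi ih =>
    rw [sum_insert hi, prod_insert hi]
    exact O_mul (O_pow (hP i) _) ih

theorem O_lin {s₀ : ℚ} (i : ι) (c : Polynomial ℚ) (hc : (Polynomial.X - Polynomial.C s₀) ∣ c) :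
    O s₀ 1 (MvPolynomial.X i + MvPolynomial.C c : MvPolynomial ι (Polynomial ℚ)) := by
  intro β
  by_cases h0 : β = 0
  · subst h0
    rw [map_zero, Nat.sub_zero, pow_one, MvPolynomial.coeff_add, MvPolynomial.coeff_zero_X,
      zero_add, MvPolynomial.coeff_zero_C]
    exact hc
  · have h1 : β.degree ≠ 0 := fun h => h0 ((Finsupp.degree_eq_zero_iff β).1 h)
    rw [show 1 - β.degree = 0 by omega, pow_zero]
    exact one_dvd _

/-- the substitution -/
noncomputable def sb (c : ι → Polynomial ℚ) :
    MvPolynomial ι ℚ →ₐ[ℚ] MvPolynomial ι (Polynomial ℚ) :=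
  MvPolynomial.aeval (fun i => MvPolynomial.X i + MvPolynomial.C (c i))

theorem sb_eq (c : ι → Polynomial ℚ) (f : MvPolynomial ι ℚ) :
    sb c f = ∑ γ ∈ f.support, algebraMap ℚ (MvPolynomial ι (Polynomial ℚ)) (f.coeff γ) *
      ∏ i, (MvPolynomial.X i + MvPolynomial.C (c i)) ^ γ i := by
  unfold sb
  rw [MvPolynomial.aeval_def, MvPolynomial.eval₂_eq']

theorem degree_sum (γ : ι →₀ ℕ) : ∑ i, γ i = γ.degree := by
  rw [Finsupp.degree_apply]
  symm
  apply Finset.sum_subset (Finset.subset_univ _)
  intro i _ hi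
  exact Finsupp.notMem_support_iff.1 hi

end

/-- LINE -/
theorem t_LINE : S_LINE := by
  classical
  intro ι _ _ J d v m l b f hf hJ hlt β hβ
  have hJ0 : 0 < J.card := by
    by_contra h
    have h0 : J.card = 0 := by omega
    rw [h0] at hlt
    omega
  let F := sb (fun i => Polynomial.C (d i) + Polynomial.C (v i) * Polynomial.X) f
  have hW : W m F := by
    show W m (sb _ f)
    rw [sb_eq]
    refine W_sum fun γ hγ => ?_
    have h1 : γ.degree ≤ m := by
      have h2 := MvPolynomial.le_totalDegree hγ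
      rw [← degree_sum]
      refine le_trans ?_ (h2.trans hf)
      rw [Finsupp.sum_fintype _ _ (fun _ => rfl)]
    rw [← zero_add m]
    refine W_mul ?_ (W_mono h1 ?_)
    · have : algebraMap ℚ (MvPolynomial ι (Polynomial ℚ)) (f.coeff γ) =
          MvPolynomial.C (Polynomial.C (f.coeff γ)) := rfl
      rw [this]
      exact W_const _ (Polynomial.natDegree_C _)
    · rw [← degree_sum]
      refine W_prod (fun i => W_lin i _ ?_) _ _
      refine (Polynomial.natDegree_add_le _ _).trans (max_le ?_ ?_)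
      · rw [Polynomial.natDegree_C]
        exact Nat.zero_le _
      · exact (Polynomial.natDegree_C_mul_le _ _).trans Polynomial.natDegree_X_le
  have hO : ∀ s₀ ∈ J, O s₀ l F := by
    intro s₀ hs
    have h1 : F = sb (fun i => (Polynomial.X - Polynomial.C s₀) * Polynomial.C (v i))
        (sh (fun i => d i + s₀ * v i) f) := by
      show sb _ f = sb _ (MvPolynomial.aeval _ f)
      have h2 : sb (fun i => Polynomial.C (d i) + Polynomial.C (v i) * Polynomial.X) =
          (sb (fun i => (Polynomial.X - Polynomial.C s₀) * Polynomial.C (v i))).comp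
            (MvPolynomial.aeval (fun i => MvPolynomial.X i +
              MvPolynomial.C (d i + s₀ * v i) : ι → MvPolynomial ι ℚ)) := by
        apply MvPolynomial.algHom_ext
        intro i
        rw [AlgHom.comp_apply, MvPolynomial.aeval_X, map_add]
        unfold sb
        rw [MvPolynomial.aeval_X, MvPolynomial.aeval_X, MvPolynomial.aeval_C]
        have h3 : algebraMap ℚ (MvPolynomial ι (Polynomial ℚ)) (d i + s₀ * v i) =
          MvPolynomial.C (Polynomial.C (d i + s₀ * v i)) := rfl
        rw [h3, add_assoc, ← MvPolynomial.C_add]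
        congr 2
        rw [Polynomial.C_add, Polynomial.C_mul]
        ring
      rw [h2]
      rfl
    rw [h1, sb_eq]
    refine O_sum fun γ hγ => ?_
    have h2 : l ≤ γ.degree := by
      by_contra h
      exact (MvPolynomial.mem_support_iff.1 hγ) (hJ s₀ hs γ (not_le.1 h))
    rw [← zero_add l]
    refine O_mul (O_zero _) (O_mono h2 ?_)
    rw [← degree_sum]
    exact O_prod (fun i => O_lin i _ (dvd_mul_right _ _)) _ _
  have hg : F.coeff β = 0 := by
    by_contra hne
    have h1 := hW β (F.coeff β).natDegree (by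
      rw [Polynomial.coeff_natDegree]
      exact Polynomial.leadingCoeff_ne_zero.2 hne)
    have h2 : ∏ s₀ ∈ J, (Polynomial.X - Polynomial.C s₀) ^ (l - β.degree) ∣ F.coeff β := by
      apply Finset.prod_dvd_of_coprime
      · intro a _ c _ hac
        show IsCoprime _ _
        apply IsCoprime.pow
        apply Polynomial.isCoprime_X_sub_C_of_isUnit_sub
        exact isUnit_iff_ne_zero.2 (sub_ne_zero.2 hac)
      · intro s₀ hs
        exact hO s₀ hs β
    have h3 := Polynomial.natDegree_le_of_dvd h2 hne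
    rw [Polynomial.natDegree_prod _ _ (fun s₀ _ => pow_ne_zero _ (Polynomial.X_sub_C_ne_zero s₀))] at h3
    simp only [Polynomial.natDegree_pow, Polynomial.natDegree_X_sub_C, mul_one, sum_const,
      smul_eq_mul] at h3
    -- arithmetic
    obtain ⟨j, hj⟩ : ∃ j, J.card = j + 1 := ⟨J.card - 1, by omega⟩
    rw [hj] at h3 hlt
    rw [Nat.add_sub_cancel] at hlt
    have h4 : l ≤ (l - β.degree) + β.degree := by omega
    have h5 : (j + 1) * l ≤ (j + 1) * (l - β.degree) + (j + 1) * β.degree := by
      rw [← Nat.mul_add]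
      exact Nat.mul_le_mul_left _ h4
    have h6 : j * β.degree ≤ j * (b - 1) := Nat.mul_le_mul_left _ (by omega)
    have h7 : (j + 1) * β.degree = j * β.degree + β.degree := by ring
    omega
  have h1 : MvPolynomial.map (Polynomial.evalRingHom (0 : ℚ)) F = sh d f := by
    have h2 : ((MvPolynomial.map (Polynomial.evalRingHom (0 : ℚ)) :
        MvPolynomial ι (Polynomial ℚ) →+* MvPolynomial ι ℚ).comp
        (sb (fun i => Polynomial.C (d i) + Polynomial.C (v i) * Polynomial.X)).toRingHom) =
        (MvPolynomial.aeval (fun i => MvPolynomial.X i + MvPolynomial.C (d i) :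
          ι → MvPolynomial ι ℚ) : MvPolynomial ι ℚ →ₐ[ℚ] MvPolynomial ι ℚ).toRingHom := by
      apply MvPolynomial.ringHom_ext
      · intro r
        simp only [RingHom.comp_apply, AlgHom.toRingHom_eq_coe, RingHom.coe_coe]
        rw [show (MvPolynomial.C r : MvPolynomial ι ℚ) = algebraMap ℚ _ r from rfl,
          AlgHom.commutes, AlgHom.commutes]
        have : algebraMap ℚ (MvPolynomial ι (Polynomial ℚ)) r =
          MvPolynomial.C (Polynomial.C r) := rfl
        rw [this, MvPolynomial.map_C]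
        simp
      · intro i
        simp only [RingHom.comp_apply, AlgHom.toRingHom_eq_coe, RingHom.coe_coe]
        unfold sb
        rw [MvPolynomial.aeval_X, MvPolynomial.aeval_X, map_add, MvPolynomial.map_X,
          MvPolynomial.map_C]
        simp
    exact congrArg (fun φ : MvPolynomial ι ℚ →+* MvPolynomial ι ℚ => φ f) h2
  rw [← h1, MvPolynomial.coeff_map, hg, map_zero]

end Pool.Agent.Y972.AK
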